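import Mathlib

/-!
The regular pentagon game: the number `ζ = e^(2πi/5)`, integer combinations of `1, ζ, ζ^2, ζ^3`, generic directions.
-/

set_option autoImplicit false

namespace H77Pent

/-- `e^(2πi/5)` -/
noncomputable def ζ : ℂ := Complex.exp (2 * (Real.pi : ℂ) * Complex.I / 5)

theorem exp_eq (j : ℕ) :
    Complex.exp (2 * (Real.pi : ℂ) * Complex.I * (j : ℂ) / 5) = ζ ^ j := by
  rw [ζ, ← Complex.exp_nat_mul]
  congr 1
  ring

theorem prim : IsPrimitiveRoot ζ 5 := by
  have h := Complex.isPrimitiveRoot_exp 5 (by norm_num)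
  have e : ζ = Complex.exp (2 * (Real.pi : ℂ) * Complex.I / ((5 : ℕ) : ℂ)) := by
    rw [ζ]
    norm_num
  rw [e]
  exact h

theorem z4 : ζ ^ 4 = -1 - ζ - ζ ^ 2 - ζ ^ 3 := by
  have h := prim.geom_sum_eq_zero (by norm_num)
  simp only [Finset.sum_range_succ, Finset.sum_range_zero, pow_zero, pow_one, zero_add] at h
  linear_combination h

theorem z5 : ζ ^ 5 = 1 := prim.pow_eq_one

theorem z_ne_one : ζ ≠ 1 := prim.ne_one (by norm_num)

theorem z_ne_zero : ζ ≠ 0 := prim.ne_zero (by norm_num)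

/-- `a + b ζ + c ζ^2 + d ζ^3` -/
noncomputable def L (a b c d : ℤ) : ℂ := a + b * ζ + c * ζ ^ 2 + d * ζ ^ 3

theorem L_sub (a b c d a' b' c' d' : ℤ) :
    L a b c d - L a' b' c' d' = L (a - a') (b - b') (c - c') (d - d') := by
  simp only [L]
  push_cast
  ring

theorem L_one : L 1 0 0 0 = 1 := by simp [L]

theorem L_zero' : L 0 0 0 0 = 0 := by simp [L]

theorem L_zero {a b c d : ℤ} (h : L a b c d = 0) : a = 0 ∧ b = 0 ∧ c = 0 ∧ d = 0 := by
  classical
  let p : Polynomial ℚ := Polynomial.monomial 0 (a : ℚ) + Polynomial.monomial 1 (b : ℚ) +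
    Polynomial.monomial 2 (c : ℚ) + Polynomial.monomial 3 (d : ℚ)
  have hp : Polynomial.aeval ζ p = 0 := by
    simp only [p, map_add, Polynomial.aeval_monomial, pow_zero, pow_one, mul_one,
      eq_ratCast, Rat.cast_intCast]
    exact h
  have h1 : Polynomial.cyclotomic 5 ℚ = minpoly ℚ ζ :=
    Polynomial.cyclotomic_eq_minpoly_rat prim (by norm_num)
  have h2 : (minpoly ℚ ζ).natDegree = 4 := by
    rw [← h1, Polynomial.natDegree_cyclotomic]
    rfl
  have h3 : p.natDegree ≤ 3 := by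
    simp only [p]
    compute_degree
  have h4 : p = 0 := by
    by_contra hne
    have h5 := minpoly.dvd ℚ ζ hp
    have h6 := Polynomial.natDegree_le_of_dvd h5 hne
    omega
  have k0 : p.coeff 0 = a := by
    simp only [p, Polynomial.coeff_add, Polynomial.coeff_monomial]
    norm_num
  have k1 : p.coeff 1 = b := by
    simp only [p, Polynomial.coeff_add, Polynomial.coeff_monomial]
    norm_num
  have k2 : p.coeff 2 = c := by
    simp only [p, Polynomial.coeff_add, Polynomial.coeff_monomial]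
    norm_num
  have k3 : p.coeff 3 = d := by
    simp only [p, Polynomial.coeff_add, Polynomial.coeff_monomial]
    norm_num
  rw [h4, Polynomial.coeff_zero] at k0 k1 k2 k3
  exact ⟨by exact_mod_cast k0.symm, by exact_mod_cast k1.symm, by exact_mod_cast k2.symm,
    by exact_mod_cast k3.symm⟩

theorem L_inj {a b c d a' b' c' d' : ℤ} :
    L a b c d = L a' b' c' d' ↔ a = a' ∧ b = b' ∧ c = c' ∧ d = d' := by
  constructor
  · intro h
    have h1 : L (a - a') (b - b') (c - c') (d - d') = 0 := by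
      rw [← L_sub, h, sub_self]
    obtain ⟨h2, h3, h4, h5⟩ := L_zero h1
    exact ⟨by omega, by omega, by omega, by omega⟩
  · rintro ⟨rfl, rfl, rfl, rfl⟩
    rfl

/-! ### norms -/

/-- the golden ratio conjugate `2 cos(2π/5)` -/
noncomputable def co : ℝ := Real.cos (2 * Real.pi / 5)

theorem co_pos : 0 < co := by
  apply Real.cos_pos_of_mem_Ioo
  constructor
  · have := Real.pi_pos
    linarith
  · have := Real.pi_pos
    linarith

theorem z_re : ζ.re = co := by
  have e : ζ = Complex.exp (((2 * Real.pi / 5 : ℝ) : ℂ) * Complex.I) := by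
    rw [ζ]
    congr 1
    push_cast
    ring
  rw [e, Complex.exp_ofReal_mul_I_re]
  rfl

theorem z_norm : ‖ζ‖ = 1 := by
  have e : ζ = Complex.exp (((2 * Real.pi / 5 : ℝ) : ℂ) * Complex.I) := by
    rw [ζ]
    congr 1
    push_cast
    ring
  rw [e, Complex.norm_exp_ofReal_mul_I]

theorem z_im_sq : ζ.im ^ 2 = 1 - co ^ 2 := by
  have h := Complex.sq_norm ζ
  rw [z_norm, Complex.normSq_apply, z_re] at h
  nlinarith

theorem conj_z : (starRingEnd ℂ) ζ = ζ ^ 4 := by
  have h1 : ζ * (starRingEnd ℂ) ζ = 1 := by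
    rw [Complex.mul_conj, Complex.normSq_eq_norm_sq, z_norm]
    norm_num
  have h2 : ζ * ζ ^ 4 = 1 := by
    rw [← pow_succ']
    exact z5
  exact mul_left_cancel₀ z_ne_zero (h1.trans h2.symm)

theorem conj_z2 : (starRingEnd ℂ) (ζ ^ 2) = ζ ^ 3 := by
  rw [map_pow, conj_z]
  have : (ζ ^ 4) ^ 2 = ζ ^ 5 * ζ ^ 3 := by ring
  rw [this, z5, one_mul]

theorem z2_re : (ζ ^ 2).re = 2 * co ^ 2 - 1 := by
  rw [pow_two, Complex.mul_re, z_re]
  have := z_im_sq
  nlinarith

theorem z2_im : (ζ ^ 2).im = 2 * co * ζ.im := by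
  rw [pow_two, Complex.mul_im, z_re]
  ring

theorem z3_re : (ζ ^ 3).re = 2 * co ^ 2 - 1 := by
  rw [← conj_z2, Complex.conj_re, z2_re]

theorem z3_im : (ζ ^ 3).im = -(2 * co * ζ.im) := by
  rw [← conj_z2, Complex.conj_im, z2_im]

theorem co_eq : 4 * co ^ 2 + 2 * co - 1 = 0 := by
  have h1 : (ζ ^ 4).re = co := by rw [← conj_z, Complex.conj_re, z_re]
  have h2 := congrArg Complex.re z4
  rw [h1] at h2
  simp only [Complex.sub_re, Complex.neg_re, Complex.one_re] at h2
  rw [z_re, z2_re, z3_re] at h2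
  linarith

theorem norm_L (a b c d : ℤ) : ‖L a b c d‖ ^ 2 = (a ^ 2 + b ^ 2 + c ^ 2 + d ^ 2 : ℝ) +
    2 * co * (a * b + b * c + c * d) - (1 + 2 * co) * (a * c + b * d + a * d) := by
  have hre : (L a b c d).re = a + b * co + (c + d) * (2 * co ^ 2 - 1) := by
    simp only [L, Complex.add_re, Complex.mul_re, Complex.intCast_re, Complex.intCast_im, z_re,
      z2_re, z3_re]
    ring
  have him : (L a b c d).im = ζ.im * (b + 2 * co * (c - d)) := by
    simp only [L, Complex.add_im, Complex.mul_im, Complex.intCast_re, Complex.intCast_im,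
      z2_im, z3_im]
    ring
  rw [Complex.sq_norm, Complex.normSq_apply, hre, him]
  have hy := z_im_sq
  have hx := co_eq
  linear_combination ((b : ℝ) + 2 * co * (c - d)) ^ 2 * hy +
    ((a : ℝ) * c + a * d - 2 * c * d - b * d + 2 * b * d * co - 2 * c * d * co +
      4 * c * d * co ^ 2) * hx

/-- the side of the pentagon -/
noncomputable def side : ℝ := ‖ζ - 1‖

theorem side_pos : 0 < side := by
  unfold side
  rw [norm_pos_iff, sub_ne_zero]
  exact z_ne_one

theorem side_mul (a b c d : ℤ) : side * ‖L a b c d‖ =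
    ‖L (a + d) (b - a + d) (c - b + d) (d - c + d)‖ := by
  have h : (ζ - 1) * L a b c d = -L (a + d) (b - a + d) (c - b + d) (d - c + d) := by
    simp only [L]
    push_cast
    linear_combination (d : ℂ) * z4
  rw [side, ← norm_mul, h, norm_neg]

theorem far1 : 2 < side * ‖L 1 0 (-1) 0‖ := by
  rw [side_mul]
  have h := norm_L (1 + 0) (0 - 1 + 0) (-1 - 0 + 0) (0 - -1 + 0)
  have hp := co_pos
  norm_num at h ⊢
  nlinarith [norm_nonneg (L 1 (-1) (-1) 1)]

theorem far2 : 2 < side * ‖L 0 (-1) (-2) (-1)‖ := by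
  rw [side_mul]
  have h := norm_L (0 + -1) (-1 - 0 + -1) (-2 - -1 + -1) (-1 - -2 + -1)
  have hp := co_pos
  norm_num at h ⊢
  nlinarith [norm_nonneg (L (-1) (-2) (-2) 0)]

theorem far3 : 2 < side * ‖L 1 0 (-1) (-1)‖ := by
  rw [side_mul]
  have h := norm_L (1 + -1) (0 - 1 + -1) (-1 - 0 + -1) (-1 - -1 + -1)
  have hp := co_pos
  norm_num at h ⊢
  nlinarith [norm_nonneg (L 0 (-2) (-2) (-1))]

theorem far4 : 2 < side * ‖L 0 (-1) (-2) (-2)‖ := by
  rw [side_mul]
  have h := norm_L (0 + -2) (-1 - 0 + -2) (-2 - -1 + -2) (-2 - -2 + -2)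
  have hp := co_pos
  norm_num at h ⊢
  nlinarith [norm_nonneg (L (-2) (-3) (-3) (-2))]

end H77Pent
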