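import Pool.Agent.Helper77.Pent.Basic

/-!
The regular pentagon game: pentagons in a lattice `P + h ℤ[ζ]`, the forced line.
-/

set_option autoImplicit false

namespace H77Pent

/-- the list contains the vertices of a congruent copy of the regular pentagon of circumradius 1 -/
def Pent (S : List ℂ) : Prop := ∃ f : ℂ → ℂ, Isometry f ∧ ∀ j : Fin 5, f (ζ ^ (j : ℕ)) ∈ S

theorem vert_inj {f : ℂ → ℂ} (hf : Isometry f) :
    Function.Injective (fun j : Fin 5 => f (ζ ^ (j : ℕ))) := by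
  intro j k h
  have h1 : ζ ^ (j : ℕ) = ζ ^ (k : ℕ) := hf.injective h
  exact Fin.ext (prim.pow_inj j.2 k.2 h1)

theorem no_short {S : List ℂ} (hS : S.length ≤ 4) {f : ℂ → ℂ} (hf : Isometry f)
    (h : ∀ j : Fin 5, f (ζ ^ (j : ℕ)) ∈ S) : False := by
  classical
  have h1 : (Finset.univ.image (fun j : Fin 5 => f (ζ ^ (j : ℕ)))) ⊆ S.toFinset := by
    intro x hx
    obtain ⟨j, -, rfl⟩ := Finset.mem_image.1 hx
    exact List.mem_toFinset.2 (h j)
  have h2 := Finset.card_le_card h1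
  rw [Finset.card_image_of_injective _ (vert_inj hf), Finset.card_univ, Fintype.card_fin] at h2
  have h3 := S.toFinset_card_le
  omega

theorem not_pent_short {S : List ℂ} (hS : S.length ≤ 4) : ¬ Pent S := by
  rintro ⟨f, hf, h⟩
  exact no_short hS hf h

/-- `a`, `b` are not both vertices of one pentagon -/
def Apart (a b : ℂ) : Prop := ∀ f : ℂ → ℂ, Isometry f → ∀ j k : Fin 5,
  f (ζ ^ (j : ℕ)) = a → f (ζ ^ (k : ℕ)) = b → False

theorem apart_of_ne {a b : ℂ}
    (h : ∀ j k : Fin 5, ‖a - b‖ ≠ ‖ζ ^ (j : ℕ) - ζ ^ (k : ℕ)‖) : Apart a b := by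
  rintro f hf j k rfl rfl
  apply h j k
  rw [← dist_eq_norm, ← dist_eq_norm, hf.dist_eq]

theorem apart_far {a b : ℂ} (h : 2 < ‖a - b‖) : Apart a b := by
  apply apart_of_ne
  intro j k h1
  have h2 : ‖ζ ^ (j : ℕ) - ζ ^ (k : ℕ)‖ ≤ 2 := by
    refine (norm_sub_le _ _).trans ?_
    rw [norm_pow, norm_pow, z_norm, one_pow, one_pow]
    norm_num
  linarith

theorem no_pent5 {a b c d p : ℂ} (hpb : Apart p b) : ¬ Pent [a, b, c, d, p] := by
  rintro ⟨f, hf, h⟩
  by_cases hp : ∃ j : Fin 5, f (ζ ^ (j : ℕ)) = p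
  · obtain ⟨j, hj⟩ := hp
    refine no_short (S := [a, c, d, p]) (by simp) hf fun k => ?_
    have h1 := h k
    simp only [List.mem_cons, List.not_mem_nil, or_false] at h1 ⊢
    rcases h1 with h1 | h1 | h1 | h1 | h1
    · exact Or.inl h1
    · exact (hpb f hf j k hj h1).elim
    · exact Or.inr (Or.inl h1)
    · exact Or.inr (Or.inr (Or.inl h1))
    · exact Or.inr (Or.inr (Or.inr h1))
  · refine no_short (S := [a, b, c, d]) (by simp) hf fun k => ?_
    have h1 := h k
    simp only [List.mem_cons, List.not_mem_nil, or_false] at h1 ⊢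
    rcases h1 with h1 | h1 | h1 | h1 | h1
    · exact Or.inl h1
    · exact Or.inr (Or.inl h1)
    · exact Or.inr (Or.inr (Or.inl h1))
    · exact Or.inr (Or.inr (Or.inr h1))
    · exact (hp ⟨k, h1⟩).elim

theorem no_pent6 {a b' b c d p : ℂ} (hpb : Apart p b) (hpb' : Apart p b') (hbb' : Apart b b') :
    ¬ Pent [a, b', b, c, d, p] := by
  rintro ⟨f, hf, h⟩
  by_cases hp : ∃ j : Fin 5, f (ζ ^ (j : ℕ)) = p
  · obtain ⟨j, hj⟩ := hp
    refine no_short (S := [a, c, d, p]) (by simp) hf fun k => ?_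
    have h1 := h k
    simp only [List.mem_cons, List.not_mem_nil, or_false] at h1 ⊢
    rcases h1 with h1 | h1 | h1 | h1 | h1 | h1
    · exact Or.inl h1
    · exact (hpb' f hf j k hj h1).elim
    · exact (hpb f hf j k hj h1).elim
    · exact Or.inr (Or.inl h1)
    · exact Or.inr (Or.inr (Or.inl h1))
    · exact Or.inr (Or.inr (Or.inr h1))
  · by_cases hb : ∃ j : Fin 5, f (ζ ^ (j : ℕ)) = b
    · obtain ⟨j, hj⟩ := hb
      refine no_short (S := [a, b, c, d]) (by simp) hf fun k => ?_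
      have h1 := h k
      simp only [List.mem_cons, List.not_mem_nil, or_false] at h1 ⊢
      rcases h1 with h1 | h1 | h1 | h1 | h1 | h1
      · exact Or.inl h1
      · exact (hbb' f hf j k hj h1).elim
      · exact Or.inr (Or.inl h1)
      · exact Or.inr (Or.inr (Or.inl h1))
      · exact Or.inr (Or.inr (Or.inr h1))
      · exact (hp ⟨k, h1⟩).elim
    · refine no_short (S := [a, b', c, d]) (by simp) hf fun k => ?_
      have h1 := h k
      simp only [List.mem_cons, List.not_mem_nil, or_false] at h1 ⊢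
      rcases h1 with h1 | h1 | h1 | h1 | h1 | h1
      · exact Or.inl h1
      · exact Or.inr (Or.inl h1)
      · exact (hb ⟨k, h1⟩).elim
      · exact Or.inr (Or.inr (Or.inl h1))
      · exact Or.inr (Or.inr (Or.inr h1))
      · exact (hp ⟨k, h1⟩).elim

theorem pent5 {P h ε κ l0 l1 l2 l3 l4 : ℂ} {S : List ℂ} (hh : ‖h‖ = side) (hε : ‖ε‖ = 1)
    (e0 : (ζ - 1) * l0 = ε + κ) (e1 : (ζ - 1) * l1 = ε * ζ + κ)
    (e2 : (ζ - 1) * l2 = ε * ζ ^ 2 + κ) (e3 : (ζ - 1) * l3 = ε * ζ ^ 3 + κ)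
    (e4 : (ζ - 1) * l4 = ε * ζ ^ 4 + κ)
    (m0 : P + h * l0 ∈ S) (m1 : P + h * l1 ∈ S) (m2 : P + h * l2 ∈ S) (m3 : P + h * l3 ∈ S)
    (m4 : P + h * l4 ∈ S) : Pent S := by
  have hz : ζ - 1 ≠ 0 := sub_ne_zero.2 z_ne_one
  have key : ∀ l z : ℂ, (ζ - 1) * l = ε * z + κ → P + h / (ζ - 1) * (ε * z + κ) = P + h * l := by
    intro l z e
    rw [← e, ← mul_assoc, div_mul_cancel₀ _ hz]
  refine ⟨fun z => P + h / (ζ - 1) * (ε * z + κ), ?_, ?_⟩
  · refine Isometry.of_dist_eq fun x y => ?_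
    rw [dist_eq_norm, dist_eq_norm]
    have e : P + h / (ζ - 1) * (ε * x + κ) - (P + h / (ζ - 1) * (ε * y + κ)) =
        h / (ζ - 1) * (ε * (x - y)) := by ring
    rw [e, norm_mul, norm_mul, norm_div, hh, hε, one_mul]
    have : side / ‖ζ - 1‖ = 1 := div_self side_pos.ne'
    rw [this, one_mul]
  · intro j
    fin_cases j
    · have := key l0 1 (by rw [e0, mul_one])
      simp only [Fin.zero_eta, Fin.val_zero, pow_zero]
      rw [this]
      exact m0
    · have := key l1 ζ e1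
      simp only [Fin.mk_one, Fin.val_one, pow_one]
      rw [this]
      exact m1
    · have := key l2 (ζ ^ 2) e2
      simp only [Fin.reduceFinMk, Fin.val_two]
      rw [this]
      exact m2
    · have := key l3 (ζ ^ 3) e3
      simp only [Fin.reduceFinMk]
      exact this ▸ m3
    · have := key l4 (ζ ^ 4) e4
      simp only [Fin.reduceFinMk]
      exact this ▸ m4

/-- the first player, to move, owns or can complete by two more free points a pentagon -/
def Fn (A B : List ℂ) : Prop := ∃ u v : ℂ, u ≠ v ∧ u ∉ A ∧ u ∉ B ∧ v ∉ A ∧ v ∉ B ∧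
  Pent (u :: v :: A) ∧ ¬ Pent B

/-- the first player can reach `Fn` in `n` rounds -/
def Win : ℕ → List ℂ → List ℂ → Prop
  | 0, A, B => Fn A B
  | n + 1, A, B => Fn A B ∨ ∃ a, a ∉ A ∧ a ∉ B ∧
      ∀ b, b ∉ A → b ∉ B → b ≠ a → Win n (a :: A) (b :: B)

end H77Pent
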