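import Pool.Agent.Helper77.Pent.Form

/-!
The regular pentagon game: the forced line in a clean lattice.
-/

set_option autoImplicit false

namespace H77Pent

/-- a point of the lattice `P + h ℤ[ζ]` -/
noncomputable def pt (P h : ℂ) (a b c d : ℤ) : ℂ := P + h * L a b c d

theorem pt_inj {P h : ℂ} (hh : h ≠ 0) {a b c d a' b' c' d' : ℤ} :
    pt P h a b c d = pt P h a' b' c' d' ↔ a = a' ∧ b = b' ∧ c = c' ∧ d = d' := by
  unfold pt
  rw [add_right_inj, mul_right_inj' hh, L_inj]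

theorem pt_sub {P h : ℂ} (hh : ‖h‖ = side) (a b c d a' b' c' d' : ℤ) :
    ‖pt P h a b c d - pt P h a' b' c' d'‖ = side * ‖L (a - a') (b - b') (c - c') (d - d')‖ := by
  rw [← L_sub, ← hh, ← norm_mul]
  congr 1
  unfold pt
  ring

theorem form {P h : ℂ} {A : List ℂ} {p1 p2 p3 : ℂ} (hh : ‖h‖ = side)
    (hP : pt P h 0 0 0 0 ∈ A) (hPh : pt P h 1 0 0 0 ∈ A)
    (hA : ∀ a b c d : ℤ, pt P h a b c d ∈ A → (a = 0 ∨ a = 1) ∧ b = 0 ∧ c = 0 ∧ d = 0)
    (hB : ∀ a b c d : ℤ, pt P h a b c d ∉ [p3, p2, p1])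
    (hG : ∀ a b c d : ℤ, ¬ (a = 0 ∧ b = 0 ∧ c = 0 ∧ d = 0) → Apart p1 (pt P h a b c d)) :
    Win 3 A [p3, p2, p1] := by
  have hh0 : h ≠ 0 := by
    intro h0
    rw [h0, norm_zero] at hh
    exact side_pos.ne hh
  have inA : ∀ a b c d : ℤ, ¬ ((a = 0 ∨ a = 1) ∧ b = 0 ∧ c = 0 ∧ d = 0) → pt P h a b c d ∉ A :=
    fun a b c d hn hm => hn (hA a b c d hm)
  refine Or.inr ⟨pt P h 1 1 0 0, inA _ _ _ _ (by norm_num), hB _ _ _ _, ?_⟩
  intro b hbA hbB hb1
  by_cases hb : b = pt P h 1 1 1 0 ∨ b = pt P h 1 1 1 1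
  swap
  · rw [not_or] at hb
    refine Or.inl ⟨pt P h 1 1 1 0, pt P h 1 1 1 1, ?_, ?_, ?_, ?_, ?_, ?_, ?_⟩
    · rw [Ne, pt_inj hh0]
      norm_num
    · rw [List.mem_cons, not_or, pt_inj hh0]
      exact ⟨by norm_num, inA _ _ _ _ (by norm_num)⟩
    · rw [List.mem_cons, not_or]
      exact ⟨fun e => hb.1 e.symm, hB _ _ _ _⟩
    · rw [List.mem_cons, not_or, pt_inj hh0]
      exact ⟨by norm_num, inA _ _ _ _ (by norm_num)⟩
    · rw [List.mem_cons, not_or]
      exact ⟨fun e => hb.2 e.symm, hB _ _ _ _⟩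
    · refine pent5 (P := P) (h := h) (ε := 1) (κ := -1) (l0 := L 0 0 0 0) (l1 := L 1 0 0 0)
        (l2 := L 1 1 0 0) (l3 := L 1 1 1 0) (l4 := L 1 1 1 1) hh norm_one ?_ ?_ ?_ ?_ ?_
        ?_ ?_ ?_ ?_ ?_
      · simp only [L]; push_cast; ring
      · simp only [L]; push_cast; ring
      · simp only [L]; push_cast; ring
      · simp only [L]; push_cast; ring
      · simp only [L]; push_cast; ring
      · exact List.mem_cons_of_mem _ (List.mem_cons_of_mem _ (List.mem_cons_of_mem _ hP))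
      · exact List.mem_cons_of_mem _ (List.mem_cons_of_mem _ (List.mem_cons_of_mem _ hPh))
      · exact List.mem_cons_of_mem _ (List.mem_cons_of_mem _ List.mem_cons_self)
      · exact List.mem_cons_self
      · exact List.mem_cons_of_mem _ List.mem_cons_self
    · exact not_pent_short (by simp)
  have hpb : Apart p1 b := by
    rcases hb with rfl | rfl
    · exact hG _ _ _ _ (by norm_num)
    · exact hG _ _ _ _ (by norm_num)
  have hbne : ∀ a' b' c' d' : ℤ, c' = 0 ∨ c' = -1 → pt P h a' b' c' d' ≠ b := by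
    intro a' b' c' d' hc e
    rcases hb with rfl | rfl
    · rw [pt_inj hh0] at e
      omega
    · rw [pt_inj hh0] at e
      omega
  refine Or.inr ⟨pt P h 1 0 (-1) 0, ?_, ?_, ?_⟩
  · rw [List.mem_cons, not_or, pt_inj hh0]
    exact ⟨by norm_num, inA _ _ _ _ (by norm_num)⟩
  · rw [List.mem_cons, not_or]
    exact ⟨hbne _ _ _ _ (by norm_num), hB _ _ _ _⟩
  intro b' hbA' hbB' hb1'
  by_cases hb' : b' = pt P h 2 1 0 0 ∨ b' = pt P h 1 0 (-1) (-1)
  swap
  · rw [not_or] at hb'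
    refine Or.inl ⟨pt P h 2 1 0 0, pt P h 1 0 (-1) (-1), ?_, ?_, ?_, ?_, ?_, ?_, ?_⟩
    · rw [Ne, pt_inj hh0]
      norm_num
    · rw [List.mem_cons, not_or, pt_inj hh0, List.mem_cons, not_or, pt_inj hh0]
      exact ⟨by norm_num, by norm_num, inA _ _ _ _ (by norm_num)⟩
    · rw [List.mem_cons, not_or, List.mem_cons, not_or]
      exact ⟨fun e => hb'.1 e.symm, hbne _ _ _ _ (by norm_num), hB _ _ _ _⟩
    · rw [List.mem_cons, not_or, pt_inj hh0, List.mem_cons, not_or, pt_inj hh0]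
      exact ⟨by norm_num, by norm_num, inA _ _ _ _ (by norm_num)⟩
    · rw [List.mem_cons, not_or, List.mem_cons, not_or]
      exact ⟨fun e => hb'.2 e.symm, hbne _ _ _ _ (by norm_num), hB _ _ _ _⟩
    · refine pent5 (P := P) (h := h) (ε := -1) (κ := ζ + ζ ^ 2 - 1) (l0 := L 2 1 0 0)
        (l1 := L 1 1 0 0) (l2 := L 1 0 0 0) (l3 := L 1 0 (-1) 0) (l4 := L 1 0 (-1) (-1)) hh
        (by rw [norm_neg, norm_one]) ?_ ?_ ?_ ?_ ?_ ?_ ?_ ?_ ?_ ?_
      · simp only [L]; push_cast; ring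
      · simp only [L]; push_cast; ring
      · simp only [L]; push_cast; ring
      · simp only [L]; push_cast; ring
      · simp only [L]; push_cast; ring
      · exact List.mem_cons_self
      · exact List.mem_cons_of_mem _ (List.mem_cons_of_mem _ (List.mem_cons_of_mem _
          List.mem_cons_self))
      · exact List.mem_cons_of_mem _ (List.mem_cons_of_mem _ (List.mem_cons_of_mem _
          (List.mem_cons_of_mem _ hPh)))
      · exact List.mem_cons_of_mem _ (List.mem_cons_of_mem _ List.mem_cons_self)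
      · exact List.mem_cons_of_mem _ List.mem_cons_self
    · exact no_pent5 hpb
  have hpb' : Apart p1 b' := by
    rcases hb' with rfl | rfl
    · exact hG _ _ _ _ (by norm_num)
    · exact hG _ _ _ _ (by norm_num)
  have hbb' : Apart b b' := by
    apply apart_far
    rw [norm_sub_rev]
    rcases hb with rfl | rfl <;> rcases hb' with rfl | rfl <;> rw [pt_sub hh]
    · exact far1
    · exact far2
    · exact far3
    · exact far4
  have hbne' : ∀ a' b'' c' d' : ℤ, ¬ (a' = 2 ∧ b'' = 1 ∧ c' = 0 ∧ d' = 0) →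
      ¬ (a' = 1 ∧ b'' = 0 ∧ c' = -1 ∧ d' = -1) → pt P h a' b'' c' d' ≠ b' := by
    intro a' b'' c' d' h1 h2 e
    rcases hb' with rfl | rfl
    · rw [pt_inj hh0] at e
      exact h1 e
    · rw [pt_inj hh0] at e
      exact h2 e
  have nB : ∀ b2 : ℂ, ¬ Pent [b2, b', b, p3, p2, p1] := fun b2 => no_pent6 hpb hpb' hbb'
  refine Or.inr ⟨pt P h 0 (-1) (-1) 0, ?_, ?_, ?_⟩
  · rw [List.mem_cons, not_or, pt_inj hh0, List.mem_cons, not_or, pt_inj hh0]
    exact ⟨by norm_num, by norm_num, inA _ _ _ _ (by norm_num)⟩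
  · rw [List.mem_cons, not_or, List.mem_cons, not_or]
    exact ⟨hbne' _ _ _ _ (by norm_num) (by norm_num), hbne _ _ _ _ (by norm_num), hB _ _ _ _⟩
  intro b2 hbA2 hbB2 hb12
  have nmA : ∀ a' b'' c' d' : ℤ, ¬ (a' = 0 ∧ b'' = -1 ∧ c' = -1 ∧ d' = 0) →
      ¬ (a' = 1 ∧ b'' = 0 ∧ c' = -1 ∧ d' = 0) → ¬ (a' = 1 ∧ b'' = 1 ∧ c' = 0 ∧ d' = 0) →
      ¬ ((a' = 0 ∨ a' = 1) ∧ b'' = 0 ∧ c' = 0 ∧ d' = 0) →
      pt P h a' b'' c' d' ∉ pt P h 0 (-1) (-1) 0 :: pt P h 1 0 (-1) 0 :: pt P h 1 1 0 0 :: A := by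
    intro a' b'' c' d' h1 h2 h3 h4
    rw [List.mem_cons, not_or, pt_inj hh0, List.mem_cons, not_or, pt_inj hh0, List.mem_cons,
      not_or, pt_inj hh0]
    exact ⟨h1, h2, h3, inA _ _ _ _ h4⟩
  have nmB : ∀ a' b'' c' d' : ℤ, pt P h a' b'' c' d' ≠ b2 →
      ¬ (a' = 2 ∧ b'' = 1 ∧ c' = 0 ∧ d' = 0) →
      ¬ (a' = 1 ∧ b'' = 0 ∧ c' = -1 ∧ d' = -1) → (c' = 0 ∨ c' = -1) →
      pt P h a' b'' c' d' ∉ b2 :: b' :: b :: [p3, p2, p1] := by
    intro a' b'' c' d' h1 h2 h3 h4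
    rw [List.mem_cons, not_or, List.mem_cons, not_or, List.mem_cons, not_or]
    exact ⟨h1, hbne' _ _ _ _ h2 h3, hbne _ _ _ _ h4, hB _ _ _ _⟩
  by_cases hb2 : b2 = pt P h 0 (-1) 0 0 ∨ b2 = pt P h 0 (-1) (-1) (-1)
  · refine ⟨pt P h 1 (-1) (-1) 0, pt P h 1 0 0 1, ?_, ?_, ?_, ?_, ?_, ?_, nB b2⟩
    · rw [Ne, pt_inj hh0]
      norm_num
    · exact nmA _ _ _ _ (by norm_num) (by norm_num) (by norm_num) (by norm_num)
    · refine nmB _ _ _ _ ?_ (by norm_num) (by norm_num) (by norm_num)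
      rcases hb2 with rfl | rfl <;> rw [Ne, pt_inj hh0] <;> norm_num
    · exact nmA _ _ _ _ (by norm_num) (by norm_num) (by norm_num) (by norm_num)
    · refine nmB _ _ _ _ ?_ (by norm_num) (by norm_num) (by norm_num)
      rcases hb2 with rfl | rfl <;> rw [Ne, pt_inj hh0] <;> norm_num
    · refine pent5 (P := P) (h := h) (ε := 1) (κ := ζ - ζ ^ 3 - 1) (l0 := L 0 (-1) (-1) 0)
        (l1 := L 1 (-1) (-1) 0) (l2 := L 1 0 (-1) 0) (l3 := L 1 0 0 0) (l4 := L 1 0 0 1) hh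
        norm_one ?_ ?_ ?_ ?_ ?_ ?_ ?_ ?_ ?_ ?_
      · simp only [L]; push_cast; ring
      · simp only [L]; push_cast; ring
      · simp only [L]; push_cast; ring
      · simp only [L]; push_cast; ring
      · simp only [L]; push_cast; ring
      · exact List.mem_cons_of_mem _ (List.mem_cons_of_mem _ List.mem_cons_self)
      · exact List.mem_cons_self
      · exact List.mem_cons_of_mem _ (List.mem_cons_of_mem _ (List.mem_cons_of_mem _
          List.mem_cons_self))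
      · exact List.mem_cons_of_mem _ (List.mem_cons_of_mem _ (List.mem_cons_of_mem _
          (List.mem_cons_of_mem _ (List.mem_cons_of_mem _ hPh))))
      · exact List.mem_cons_of_mem _ List.mem_cons_self
  · rw [not_or] at hb2
    refine ⟨pt P h 0 (-1) 0 0, pt P h 0 (-1) (-1) (-1), ?_, ?_, ?_, ?_, ?_, ?_, nB b2⟩
    · rw [Ne, pt_inj hh0]
      norm_num
    · exact nmA _ _ _ _ (by norm_num) (by norm_num) (by norm_num) (by norm_num)
    · exact nmB _ _ _ _ (fun e => hb2.1 e.symm) (by norm_num) (by norm_num) (by norm_num)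
    · exact nmA _ _ _ _ (by norm_num) (by norm_num) (by norm_num) (by norm_num)
    · exact nmB _ _ _ _ (fun e => hb2.2 e.symm) (by norm_num) (by norm_num) (by norm_num)
    · refine pent5 (P := P) (h := h) (ε := -1) (κ := ζ) (l0 := L 1 0 0 0) (l1 := L 0 0 0 0)
        (l2 := L 0 (-1) 0 0) (l3 := L 0 (-1) (-1) 0) (l4 := L 0 (-1) (-1) (-1)) hh
        (by rw [norm_neg, norm_one]) ?_ ?_ ?_ ?_ ?_ ?_ ?_ ?_ ?_ ?_
      · simp only [L]; push_cast; ring
      · simp only [L]; push_cast; ring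
      · simp only [L]; push_cast; ring
      · simp only [L]; push_cast; ring
      · simp only [L]; push_cast; ring
      · exact List.mem_cons_of_mem _ (List.mem_cons_of_mem _ (List.mem_cons_of_mem _
          (List.mem_cons_of_mem _ (List.mem_cons_of_mem _ hPh))))
      · exact List.mem_cons_of_mem _ (List.mem_cons_of_mem _ (List.mem_cons_of_mem _
          (List.mem_cons_of_mem _ (List.mem_cons_of_mem _ hP))))
      · exact List.mem_cons_self
      · exact List.mem_cons_of_mem _ (List.mem_cons_of_mem _ List.mem_cons_self)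
      · exact List.mem_cons_of_mem _ List.mem_cons_self

end H77Pent
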