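import Pool.Agent.Helper77.Pent.Line

/-!
The regular pentagon game: generic directions, the first moves.
-/

set_option autoImplicit false

namespace H77Pent

/-! ### generic choices -/

theorem exists_re {W : Set ℂ} (hW : W.Countable) {s : ℝ} (hs : 0 < s) :
    ∃ w : ℂ, ‖w‖ = s ∧ w ∉ W := by
  have h1 : (Complex.re '' W).Countable := hW.image _
  obtain ⟨x, hx, hxW⟩ := (h1.dense_compl ℝ).inter_open_nonempty (Set.Ioo 0 s) isOpen_Ioo
    ⟨s / 2, by constructor <;> linarith⟩
  refine ⟨⟨x, Real.sqrt (s ^ 2 - x ^ 2)⟩, ?_, fun hw => hxW ⟨_, hw, rfl⟩⟩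
  have h2 : 0 ≤ s ^ 2 - x ^ 2 := by nlinarith [hx.1, hx.2]
  have h3 : ‖(⟨x, Real.sqrt (s ^ 2 - x ^ 2)⟩ : ℂ)‖ ^ 2 = s ^ 2 := by
    rw [Complex.sq_norm, Complex.normSq_apply]
    show x * x + Real.sqrt (s ^ 2 - x ^ 2) * Real.sqrt (s ^ 2 - x ^ 2) = s ^ 2
    rw [Real.mul_self_sqrt h2]
    ring
  exact (pow_left_inj₀ (norm_nonneg _) hs.le two_ne_zero).1 h3

theorem exists_w : ∃ w : ℂ, ‖w‖ = 1 ∧ ∀ a b c d a' b' c' d' : ℤ,
    L a b c d + w * L a' b' c' d' = 0 →
      (a = 0 ∧ b = 0 ∧ c = 0 ∧ d = 0) ∧ (a' = 0 ∧ b' = 0 ∧ c' = 0 ∧ d' = 0) := by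
  obtain ⟨w, hw, hwW⟩ := exists_re (W := Set.range fun q : (ℤ × ℤ × ℤ × ℤ) × (ℤ × ℤ × ℤ × ℤ) =>
    -L q.1.1 q.1.2.1 q.1.2.2.1 q.1.2.2.2 / L q.2.1 q.2.2.1 q.2.2.2.1 q.2.2.2.2)
    (Set.countable_range _) one_pos
  refine ⟨w, hw, ?_⟩
  intro a b c d a' b' c' d' h
  have h1 : L a' b' c' d' = 0 := by
    by_contra hne
    apply hwW
    refine ⟨⟨⟨a, b, c, d⟩, ⟨a', b', c', d'⟩⟩, ?_⟩
    show -L a b c d / L a' b' c' d' = w
    rw [div_eq_iff hne]
    linear_combination -h
  rw [h1, mul_zero, add_zero] at h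
  exact ⟨L_zero h, L_zero h1⟩

theorem circ (b : ℂ) (hb : b ≠ 0) (s r : ℝ) : {v : ℂ | ‖v‖ = s ∧ (b * v).re = r}.Countable := by
  refine Set.Countable.mono ?_ (Set.Finite.countable
    (Set.toFinite {(⟨r, Real.sqrt (‖b‖ ^ 2 * s ^ 2 - r ^ 2)⟩ : ℂ) / b,
      (⟨r, -Real.sqrt (‖b‖ ^ 2 * s ^ 2 - r ^ 2)⟩ : ℂ) / b}))
  rintro v ⟨hv, hr⟩
  have h1 : (b * v).im ^ 2 = ‖b‖ ^ 2 * s ^ 2 - r ^ 2 := by
    have h2 := Complex.sq_norm (b * v)
    rw [norm_mul, hv, Complex.normSq_apply, hr] at h2
    nlinarith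
  have h3 : Real.sqrt (‖b‖ ^ 2 * s ^ 2 - r ^ 2) = |(b * v).im| := by
    rw [← h1, Real.sqrt_sq_eq_abs]
  rw [h3]
  rcases abs_cases (b * v).im with ⟨h4, _⟩ | ⟨h4, _⟩
  · left
    rw [h4, eq_div_iff hb, mul_comm]
    apply Complex.ext
    · exact hr
    · rfl
  · right
    show v = _ / b
    rw [h4, neg_neg, eq_div_iff hb, mul_comm]
    apply Complex.ext
    · exact hr
    · rfl

theorem circ2 (p t : ℂ) (hp : p ≠ 0) (ht : t ≠ 0) (s ρ : ℝ) :
    {v : ℂ | ‖v‖ = s ∧ ‖p - v * t‖ = ρ}.Countable := by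
  refine (circ ((starRingEnd ℂ) p * t) (mul_ne_zero ((map_ne_zero _).2 hp) ht) s
    ((‖p‖ ^ 2 + s ^ 2 * ‖t‖ ^ 2 - ρ ^ 2) / 2)).mono ?_
  rintro v ⟨hv, hr⟩
  refine ⟨hv, ?_⟩
  have h1 := Complex.normSq_sub p (v * t)
  rw [← Complex.sq_norm, ← Complex.sq_norm, ← Complex.sq_norm, hr, norm_mul, hv] at h1
  have h2 : (p * (starRingEnd ℂ) (v * t)).re = ((starRingEnd ℂ) p * t * v).re := by
    rw [← Complex.conj_re]
    congr 1
    rw [map_mul, Complex.conj_conj]
    ring
  rw [h2] at h1
  linarith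

theorem exists_v (w p : ℂ) (hp : p ≠ 0) : ∃ v : ℂ, ‖v‖ = side ∧
    ∀ a b c d a' b' c' d' : ℤ, L a b c d + w * L a' b' c' d' ≠ 0 →
      Apart p (v * (L a b c d + w * L a' b' c' d')) := by
  let T : (ℤ × ℤ × ℤ × ℤ) × (ℤ × ℤ × ℤ × ℤ) → ℂ := fun q =>
    L q.1.1 q.1.2.1 q.1.2.2.1 q.1.2.2.2 + w * L q.2.1 q.2.2.1 q.2.2.2.1 q.2.2.2.2
  obtain ⟨v, hv, hvW⟩ := exists_re (W := ⋃ q : (ℤ × ℤ × ℤ × ℤ) × (ℤ × ℤ × ℤ × ℤ),
    ⋃ j : Fin 5, ⋃ k : Fin 5, {v : ℂ | T q ≠ 0 ∧ ‖v‖ = side ∧
      ‖p - v * T q‖ = ‖ζ ^ (j : ℕ) - ζ ^ (k : ℕ)‖}) (by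
    refine Set.countable_iUnion fun q => Set.countable_iUnion fun j =>
      Set.countable_iUnion fun k => ?_
    by_cases hq : T q = 0
    · refine Set.Countable.mono ?_ (Set.countable_empty)
      rintro v ⟨h1, _⟩
      exact (h1 hq).elim
    · refine (circ2 p (T q) hp hq side ‖ζ ^ (j : ℕ) - ζ ^ (k : ℕ)‖).mono ?_
      rintro v ⟨_, h1, h2⟩
      exact ⟨h1, h2⟩) side_pos
  refine ⟨v, hv, ?_⟩
  intro a b c d a' b' c' d' h
  apply apart_of_ne
  intro j k e
  apply hvW
  rw [Set.mem_iUnion]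
  refine ⟨⟨⟨a, b, c, d⟩, ⟨a', b', c', d'⟩⟩, ?_⟩
  rw [Set.mem_iUnion]
  refine ⟨j, ?_⟩
  rw [Set.mem_iUnion]
  exact ⟨k, h, hv, e⟩

theorem Apart.ne {p q : ℂ} (h : Apart p q) : p ≠ q := by
  rintro rfl
  refine h (fun z => z - 1 + p) ?_ 0 0 ?_ ?_
  · refine Isometry.of_dist_eq fun x y => ?_
    rw [dist_eq_norm, dist_eq_norm]
    congr 1
    ring
  · simp
  · simp

/-! ### the first moves -/

/-- the conditions on the two unit directions `v`, `v w` -/
structure Gen (v w p : ℂ) : Prop where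
  v_norm : ‖v‖ = side
  w_norm : ‖w‖ = 1
  ind : ∀ a b c d a' b' c' d' : ℤ, L a b c d + w * L a' b' c' d' = 0 →
    (a = 0 ∧ b = 0 ∧ c = 0 ∧ d = 0) ∧ (a' = 0 ∧ b' = 0 ∧ c' = 0 ∧ d' = 0)
  apart : ∀ a b c d a' b' c' d' : ℤ, L a b c d + w * L a' b' c' d' ≠ 0 →
    Apart p (v * (L a b c d + w * L a' b' c' d'))

theorem Gen.v_ne {v w p : ℂ} (h : Gen v w p) : v ≠ 0 := by
  intro h0
  have := h.v_norm
  rw [h0, norm_zero] at this
  exact side_pos.ne this

theorem Gen.w_ne {v w p : ℂ} (h : Gen v w p) : w ≠ 0 := by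
  intro h0
  have := h.w_norm
  rw [h0, norm_zero] at this
  exact one_ne_zero this.symm

theorem Gen.swap {v w p : ℂ} (h : Gen v w p) : Gen (v * w) w⁻¹ p where
  v_norm := by rw [norm_mul, h.v_norm, h.w_norm, mul_one]
  w_norm := by rw [norm_inv, h.w_norm, inv_one]
  ind := by
    intro a b c d a' b' c' d' e
    have e1 : L a' b' c' d' + w * L a b c d = 0 := by
      have : w * (L a b c d + w⁻¹ * L a' b' c' d') = 0 := by rw [e, mul_zero]
      rw [mul_add, ← mul_assoc, mul_inv_cancel₀ h.w_ne, one_mul] at this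
      rw [add_comm]
      exact this
    exact (h.ind _ _ _ _ _ _ _ _ e1).symm
  apart := by
    intro a b c d a' b' c' d' e
    have e1 : v * w * (L a b c d + w⁻¹ * L a' b' c' d') =
        v * (L a' b' c' d' + w * L a b c d) := by
      have := h.w_ne
      field_simp
      ring
    rw [e1]
    apply h.apart
    intro e2
    apply e
    have : w⁻¹ * (L a' b' c' d' + w * L a b c d) = 0 := by rw [e2, mul_zero]
    rw [mul_add, ← mul_assoc, inv_mul_cancel₀ h.w_ne, one_mul] at this
    rw [add_comm]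
    exact this

theorem stage3 {v w p1 p2 p3 : ℂ} (h : Gen v w p1) (hp1 : p1 ≠ 0)
    (h21 : ∀ a b c d : ℤ, p2 ≠ v * L a b c d)
    (h22 : ∀ a b c d : ℤ, p2 ≠ v * (1 + w * L a b c d)) (h3 : p3 ≠ v) :
    Win 3 [v, v + v * w, 0] [p3, p2, p1] := by
  have hv := h.v_ne
  have hw := h.w_ne
  by_cases hc : ∀ a b c d : ℤ, p3 ≠ v * L a b c d
  · refine form (P := 0) (h := v) h.v_norm ?_ ?_ ?_ ?_ ?_
    · simp [pt, L_zero']
    · simp [pt, L_one]
    · intro a b c d hm
      simp only [pt, zero_add, List.mem_cons, List.not_mem_nil, or_false] at hm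
      rcases hm with hm | hm | hm
      · have e : L a b c d = L 1 0 0 0 := by
          rw [L_one]
          exact mul_left_cancel₀ hv (by rw [hm, mul_one])
        rw [L_inj] at e
        exact ⟨Or.inr e.1, e.2.1, e.2.2.1, e.2.2.2⟩
      · exfalso
        have e : L (a - 1) b c d + w * L (-1) 0 0 0 = 0 := by
          have e1 : L a b c d = 1 + w := mul_left_cancel₀ hv (by rw [hm]; ring)
          have e2 : L (a - 1) b c d = L a b c d - 1 := by
            simp only [L]; push_cast; ring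
          have e3 : L (-1) 0 0 0 = -1 := by simp [L]
          rw [e2, e3, e1]
          ring
        have := (h.ind _ _ _ _ _ _ _ _ e).2.1
        norm_num at this
      · have e : L a b c d = 0 := by
          rcases mul_eq_zero.1 hm with h0 | h0
          · exact (hv h0).elim
          · exact h0
        obtain ⟨e1, e2, e3, e4⟩ := L_zero e
        exact ⟨Or.inl e1, e2, e3, e4⟩
    · intro a b c d
      simp only [pt, zero_add, List.mem_cons, List.not_mem_nil, or_false, not_or]
      refine ⟨fun e => hc a b c d e.symm, fun e => h21 a b c d e.symm, ?_⟩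
      intro e
      by_cases h0 : L a b c d = 0
      · rw [h0, mul_zero] at e
        exact hp1 e.symm
      · have h1 : L a b c d + w * L 0 0 0 0 ≠ 0 := by
          rw [L_zero', mul_zero, add_zero]
          exact h0
        have h2 := (h.apart a b c d 0 0 0 0 h1).ne
        rw [L_zero', mul_zero, add_zero] at h2
        exact h2 e.symm
    · intro a b c d hn
      have h1 : L a b c d + w * L 0 0 0 0 ≠ 0 := by
        rw [L_zero', mul_zero, add_zero]
        exact fun e => hn (L_zero e)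
      have h2 := h.apart a b c d 0 0 0 0 h1
      rw [L_zero', mul_zero, add_zero] at h2
      simp only [pt, zero_add]
      exact h2
  · obtain ⟨a0, b0, c0, d0, h30⟩ : ∃ a b c d : ℤ, p3 = v * L a b c d := by
      by_contra hn
      apply hc
      intro a b c d e
      exact hn ⟨a, b, c, d, e⟩
    have hpt : ∀ a b c d : ℤ, pt v (v * w) a b c d = v * (L 1 0 0 0 + w * L a b c d) := by
      intro a b c d
      rw [L_one, pt]
      ring
    have hne : ∀ a b c d : ℤ, L 1 0 0 0 + w * L a b c d ≠ 0 := by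
      intro a b c d e
      have := (h.ind _ _ _ _ _ _ _ _ e).1.1
      norm_num at this
    refine form (P := v) (h := v * w) ?_ ?_ ?_ ?_ ?_ ?_
    · rw [norm_mul, h.v_norm, h.w_norm, mul_one]
    · simp [pt, L_zero']
    · simp [pt, L_one]
    · intro a b c d hm
      simp only [pt, List.mem_cons, List.not_mem_nil, or_false] at hm
      rcases hm with hm | hm | hm
      · have e : L a b c d = 0 := by
          have e1 : v * w * L a b c d = 0 := add_eq_left.1 hm
          rcases mul_eq_zero.1 e1 with h0 | h0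
          · exact (mul_ne_zero hv hw h0).elim
          · exact h0
        obtain ⟨e1, e2, e3, e4⟩ := L_zero e
        exact ⟨Or.inl e1, e2, e3, e4⟩
      · have e : L a b c d = L 1 0 0 0 := by
          rw [L_one]
          exact mul_left_cancel₀ (mul_ne_zero hv hw) (by rw [add_left_cancel hm, mul_one])
        rw [L_inj] at e
        exact ⟨Or.inr e.1, e.2.1, e.2.2.1, e.2.2.2⟩
      · exfalso
        apply hne a b c d
        rw [L_one]
        exact mul_left_cancel₀ hv (by rw [mul_zero, ← hm]; ring)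
    · intro a b c d
      rw [hpt]
      simp only [List.mem_cons, List.not_mem_nil, or_false, not_or]
      refine ⟨?_, ?_, ?_⟩
      · intro e
        rw [h30] at e
        have e1 : L (a0 - 1) b0 c0 d0 + w * L (-a) (-b) (-c) (-d) = 0 := by
          have e2 := mul_left_cancel₀ hv e
          rw [L_one] at e2
          have e3 : L (a0 - 1) b0 c0 d0 = L a0 b0 c0 d0 - 1 := by
            simp only [L]; push_cast; ring
          have e4 : L (-a) (-b) (-c) (-d) = -L a b c d := by
            simp only [L]; push_cast; ring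
          rw [e3, e4, ← e2]
          ring
        obtain ⟨⟨k1, k2, k3, k4⟩, -⟩ := h.ind _ _ _ _ _ _ _ _ e1
        apply h3
        have k5 : a0 = 1 := by omega
        rw [h30, k5, k2, k3, k4, L_one, mul_one]
      · intro e
        apply h22 a b c d
        rw [← e, L_one]
      · intro e
        exact (h.apart 1 0 0 0 a b c d (hne a b c d)).ne e.symm
    · intro a b c d _
      rw [hpt]
      exact h.apart 1 0 0 0 a b c d (hne a b c d)

theorem stage2 {v w p1 p2 : ℂ} (h : Gen v w p1) (hp1 : p1 ≠ 0) (hp20 : p2 ≠ 0)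
    (hp2s : p2 ≠ v + v * w) : Win 4 [v + v * w, 0] [p2, p1] := by
  have hv := h.v_ne
  have hw := h.w_ne
  by_cases hc : (∀ a b c d : ℤ, p2 ≠ v * L a b c d) ∧
      ∀ a b c d : ℤ, p2 ≠ v * (1 + w * L a b c d)
  · refine Or.inr ⟨v, ?_, ?_, fun p3 _ _ h3 => stage3 h hp1 hc.1 hc.2 h3⟩
    · simp only [List.mem_cons, List.not_mem_nil, or_false, not_or]
      exact ⟨fun e => mul_ne_zero hv hw (add_eq_left.1 e.symm), hv⟩
    · simp only [List.mem_cons, List.not_mem_nil, or_false, not_or]
      refine ⟨?_, ?_⟩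
      · intro e
        apply hc.1 1 0 0 0
        rw [L_one, mul_one]
        exact e.symm
      · intro e
        have h1 : L 1 0 0 0 + w * L 0 0 0 0 ≠ 0 := by
          rw [L_zero', mul_zero, add_zero, L_one]
          exact one_ne_zero
        apply (h.apart 1 0 0 0 0 0 0 0 h1).ne
        rw [L_zero', mul_zero, add_zero, L_one, mul_one]
        exact e.symm
  · have h21 : ∀ a b c d : ℤ, p2 ≠ v * w * L a b c d := by
      intro a b c d e
      apply hc
      refine ⟨fun a' b' c' d' e' => ?_, fun a' b' c' d' e' => ?_⟩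
      · have e1 : L a' b' c' d' + w * L (-a) (-b) (-c) (-d) = 0 := by
          have e2 : L a' b' c' d' = w * L a b c d := by
            apply mul_left_cancel₀ hv
            rw [← e', e]
            ring
          have e4 : L (-a) (-b) (-c) (-d) = -L a b c d := by
            simp only [L]; push_cast; ring
          rw [e4, e2]
          ring
        obtain ⟨⟨k1, k2, k3, k4⟩, -⟩ := h.ind _ _ _ _ _ _ _ _ e1
        apply hp20
        rw [e', k1, k2, k3, k4, L_zero', mul_zero]
      · have e1 : L 1 0 0 0 + w * L (a' - a) (b' - b) (c' - c) (d' - d) = 0 := by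
          rw [← L_sub, L_one]
          have e2 : 1 + w * L a' b' c' d' = w * L a b c d := by
            apply mul_left_cancel₀ hv
            rw [← e', e]
            ring
          linear_combination e2
        have := (h.ind _ _ _ _ _ _ _ _ e1).1.1
        norm_num at this
    have h22 : ∀ a b c d : ℤ, p2 ≠ v * w * (1 + w⁻¹ * L a b c d) := by
      intro a b c d e
      have e0 : p2 = v * (w + L a b c d) := by
        rw [e]
        field_simp
      apply hc
      refine ⟨fun a' b' c' d' e' => ?_, fun a' b' c' d' e' => ?_⟩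
      · have e1 : L (a' - a) (b' - b) (c' - c) (d' - d) + w * L (-1) 0 0 0 = 0 := by
          have e2 : L a' b' c' d' = w + L a b c d := by
            apply mul_left_cancel₀ hv
            rw [← e', e0]
          have e3 : L (-1) 0 0 0 = -1 := by simp [L]
          rw [← L_sub, e3, e2]
          ring
        have := (h.ind _ _ _ _ _ _ _ _ e1).2.1
        norm_num at this
      · have e1 : L (1 - a) (0 - b) (0 - c) (0 - d) + w * L (a' - 1) (b' - 0) (c' - 0) (d' - 0) =
            0 := by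
          have e2 : 1 + w * L a' b' c' d' = w + L a b c d := by
            apply mul_left_cancel₀ hv
            rw [← e', e0]
          rw [← L_sub, ← L_sub, L_one]
          linear_combination e2
        obtain ⟨-, k1, k2, k3, k4⟩ := h.ind _ _ _ _ _ _ _ _ e1
        apply hp2s
        have k5 : a' = 1 := by omega
        have k6 : b' = 0 := by omega
        have k7 : c' = 0 := by omega
        have k8 : d' = 0 := by omega
        rw [e', k5, k6, k7, k8, L_one, mul_one]
        ring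
    have hs := h.swap
    have e : v * w + v * w * w⁻¹ = v + v * w := by
      rw [mul_assoc v w w⁻¹, mul_inv_cancel₀ hw, mul_one, add_comm]
    refine Or.inr ⟨v * w, ?_, ?_, fun p3 _ _ h3 => ?_⟩
    · simp only [List.mem_cons, List.not_mem_nil, or_false, not_or]
      exact ⟨fun e => hv (add_eq_right.1 e.symm), mul_ne_zero hv hw⟩
    · simp only [List.mem_cons, List.not_mem_nil, or_false, not_or]
      refine ⟨?_, ?_⟩
      · intro e
        apply h21 1 0 0 0
        rw [L_one, mul_one]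
        exact e.symm
      · intro e
        have h1 : L 0 0 0 0 + w * L 1 0 0 0 ≠ 0 := by
          rw [L_zero', zero_add, L_one, mul_one]
          exact hw
        apply (h.apart 0 0 0 0 1 0 0 0 h1).ne
        rw [L_zero', zero_add, L_one, mul_one]
        exact e.symm
    · have := stage3 hs hp1 h21 h22 h3
      rw [e] at this
      exact this

theorem win6 : Win 6 [] [] := by
  obtain ⟨w, hw1, hw⟩ := exists_w
  refine Or.inr ⟨0, List.not_mem_nil, List.not_mem_nil, fun p1 _ _ hp1 => ?_⟩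
  obtain ⟨v, hv, hvp⟩ := exists_v w p1 hp1
  have h : Gen v w p1 := ⟨hv, hw1, hw, hvp⟩
  have h1 : L 1 0 0 0 + w * L 1 0 0 0 ≠ 0 := by
    intro e
    have := (hw _ _ _ _ _ _ _ _ e).1.1
    norm_num at this
  refine Or.inr ⟨v + v * w, ?_, ?_, fun p2 h20 h21 h2s => ?_⟩
  · simp only [List.mem_cons, List.not_mem_nil, or_false]
    intro e
    apply h1
    rw [L_one]
    exact mul_left_cancel₀ h.v_ne (by rw [mul_zero, ← e]; ring)
  · simp only [List.mem_cons, List.not_mem_nil, or_false]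
    intro e
    apply (h.apart 1 0 0 0 1 0 0 0 h1).ne
    rw [L_one, mul_one, ← e]
    ring
  · simp only [List.mem_cons, List.not_mem_nil, or_false] at h20
    exact stage2 h hp1 h20 h2s

end H77Pent
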