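import Pool.Agent.Helper77.Pent.Main

/-!
The regular pentagon game: from the recursive predicate `Win` to a strategy.
-/

set_option autoImplicit false

namespace H77Pent

/-- the stones of the first player in a history of even length, last stone first -/
def evs (h : List ℂ) : List ℂ := ((List.range (h.length / 2)).map (fun i => h.getD (2 * i) 0)).reverse

/-- the stones of the second player -/
def ods (h : List ℂ) : List ℂ :=
  ((List.range (h.length / 2)).map (fun i => h.getD (2 * i + 1) 0)).reverse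

def stA (x : ℕ → ℂ) (k : ℕ) : List ℂ := ((List.range k).map (fun i => x (2 * i))).reverse

def stB (x : ℕ → ℂ) (k : ℕ) : List ℂ := ((List.range k).map (fun i => x (2 * i + 1))).reverse

theorem stA_succ (x : ℕ → ℂ) (k : ℕ) : stA x (k + 1) = x (2 * k) :: stA x k := by
  simp [stA, List.range_succ]

theorem stB_succ (x : ℕ → ℂ) (k : ℕ) : stB x (k + 1) = x (2 * k + 1) :: stB x k := by
  simp [stB, List.range_succ]

theorem mem_stA {x : ℕ → ℂ} {k : ℕ} {y : ℂ} : y ∈ stA x k ↔ ∃ i < k, y = x (2 * i) := by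
  simp only [stA, List.mem_reverse, List.mem_map, List.mem_range]
  exact ⟨fun ⟨i, h1, h2⟩ => ⟨i, h1, h2.symm⟩, fun ⟨i, h1, h2⟩ => ⟨i, h1, h2.symm⟩⟩

theorem mem_stB {x : ℕ → ℂ} {k : ℕ} {y : ℂ} : y ∈ stB x k ↔ ∃ i < k, y = x (2 * i + 1) := by
  simp only [stB, List.mem_reverse, List.mem_map, List.mem_range]
  exact ⟨fun ⟨i, h1, h2⟩ => ⟨i, h1, h2.symm⟩, fun ⟨i, h1, h2⟩ => ⟨i, h1, h2.symm⟩⟩

theorem evs_ofFn (x : ℕ → ℂ) (k : ℕ) :
    evs (List.ofFn (fun i : Fin (2 * k) => x (i : ℕ))) = stA x k := by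
  unfold evs stA
  rw [List.length_ofFn, Nat.mul_div_cancel_left k (by norm_num)]
  congr 1
  refine List.map_congr_left fun i hi => ?_
  have hi' : i < k := List.mem_range.1 hi
  rw [List.getD_eq_getElem _ _ (by rw [List.length_ofFn]; omega), List.getElem_ofFn]

theorem ods_ofFn (x : ℕ → ℂ) (k : ℕ) :
    ods (List.ofFn (fun i : Fin (2 * k) => x (i : ℕ))) = stB x k := by
  unfold ods stB
  rw [List.length_ofFn, Nat.mul_div_cancel_left k (by norm_num)]
  congr 1
  refine List.map_congr_left fun i hi => ?_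
  have hi' : i < k := List.mem_range.1 hi
  rw [List.getD_eq_getElem _ _ (by rw [List.length_ofFn]; omega), List.getElem_ofFn]

/-- the good moves after the history `h` in a game of `N` rounds -/
def Good (N : ℕ) (h : List ℂ) (a : ℂ) : Prop := a ∉ evs h ∧ a ∉ ods h ∧
  ∀ b, b ∉ evs h → b ∉ ods h → b ≠ a → Win (N - h.length / 2 - 1) (a :: evs h) (b :: ods h)

theorem exists_move (N : ℕ) (h : List ℂ) : ∃ a, a ∉ evs h ∧ a ∉ ods h ∧
    ((∃ a', Good N h a') → Good N h a) := by
  classical
  by_cases hg : ∃ a', Good N h a'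
  · obtain ⟨a, ha⟩ := hg
    exact ⟨a, ha.1, ha.2.1, fun _ => ha⟩
  · obtain ⟨a, ha⟩ := Infinite.exists_notMem_finset (evs h ++ ods h).toFinset
    rw [List.mem_toFinset, List.mem_append, not_or] at ha
    exact ⟨a, ha.1, ha.2, fun h' => (hg h').elim⟩

theorem exists_strategy (N : ℕ) (hN : Win N [] []) :
    ∃ σ : List ℂ → ℂ, ∀ x : ℕ → ℂ,
      (∀ n : ℕ, x (2 * n) = σ (List.ofFn (fun i : Fin (2 * n) => x (i : ℕ)))) →
      (∀ n : ℕ, ∀ i < 2 * n + 1, x (2 * n + 1) ≠ x i) →
      (∀ n : ℕ, ∀ i < 2 * n, x (2 * n) ≠ x i) ∧ ∃ k ≤ N, Fn (stA x k) (stB x k) := by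
  choose σ hσ1 hσ2 hσ3 using exists_move N
  refine ⟨σ, fun x hx hx' => ⟨?_, ?_⟩⟩
  · intro n i hi e
    rcases Nat.even_or_odd' i with ⟨j, rfl | rfl⟩
    · apply hσ1 (List.ofFn (fun i : Fin (2 * n) => x (i : ℕ)))
      rw [← hx, evs_ofFn, mem_stA]
      exact ⟨j, by omega, e⟩
    · apply hσ2 (List.ofFn (fun i : Fin (2 * n) => x (i : ℕ)))
      rw [← hx, ods_ofFn, mem_stB]
      exact ⟨j, by omega, e⟩
  · have key : ∀ k ≤ N, (∃ k' < k, Fn (stA x k') (stB x k')) ∨ Win (N - k) (stA x k) (stB x k) := by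
      intro k
      induction k with
      | zero =>
        intro _
        exact Or.inr hN
      | succ k ih =>
        intro hk
        rcases ih (by omega) with ⟨k', h1, h2⟩ | h
        · exact Or.inl ⟨k', by omega, h2⟩
        obtain ⟨m, hm⟩ : ∃ m, N - k = m + 1 := ⟨N - k - 1, by omega⟩
        rw [hm] at h
        rcases h with h | ⟨a, ha1, ha2, ha3⟩
        · exact Or.inl ⟨k, by omega, h⟩
        right
        have hlen : (List.ofFn (fun i : Fin (2 * k) => x (i : ℕ))).length / 2 = k := by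
          rw [List.length_ofFn, Nat.mul_div_cancel_left k (by norm_num)]
        have hg : Good N (List.ofFn (fun i : Fin (2 * k) => x (i : ℕ))) a := by
          unfold Good
          rw [evs_ofFn, ods_ofFn, hlen]
          have e : N - k - 1 = m := by omega
          rw [e]
          exact ⟨ha1, ha2, ha3⟩
        have hg' := hσ3 _ ⟨a, hg⟩
        rw [← hx] at hg'
        unfold Good at hg'
        rw [evs_ofFn, ods_ofFn, hlen] at hg'
        have h2 := hg'.2.2 (x (2 * k + 1)) ?_ ?_ ?_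
        · rw [stA_succ, stB_succ]
          have e : N - k - 1 = N - (k + 1) := by omega
          rw [e] at h2
          exact h2
        · rw [mem_stA]
          rintro ⟨i, hi, e⟩
          exact hx' k (2 * i) (by omega) e
        · rw [mem_stB]
          rintro ⟨i, hi, e⟩
          exact hx' k (2 * i + 1) (by omega) e
        · exact hx' k (2 * k) (by omega)
    rcases key N le_rfl with ⟨k, h1, h2⟩ | h
    · exact ⟨k, by omega, h2⟩
    · rw [Nat.sub_self] at h
      exact ⟨N, le_rfl, h⟩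

end H77Pent
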